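import Pool.Agent.Helper446.EL.QM

/-!
The class of quasi-maximal r.e. sets is definable, by a first-order formula without parameters, in
the lattice of r.e. sets ordered by inclusion.
-/

set_option autoImplicit false

namespace Pool.Agent.Results.MP_2ea200_lc.QuasiMaximalDefinable

open FirstOrder FirstOrder.Language

/-- The lattice of r.e. sets of natural numbers. -/
abbrev E : Type := {s : Set ℕ // REPred (fun n => n ∈ s)}

/-- The order of `E` is inclusion. -/
theorem le_iff (X Y : E) : X ≤ Y ↔ X.1 ⊆ Y.1 := Iff.rfl

/-- `E` as a structure in the language with one binary relation symbol, interpreted as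
inclusion. -/
instance str : Language.order.Structure E := orderStructure E

/-- `M` is a maximal r.e. set: its complement is infinite, and for every r.e. superset `W` the set
`W \ M` or the complement of `W` is finite. -/
def IsMaximal (M : Set ℕ) : Prop :=
  REPred (fun n => n ∈ M) ∧ Mᶜ.Infinite ∧
    ∀ W : Set ℕ, REPred (fun n => n ∈ W) → M ⊆ W → (W \ M).Finite ∨ Wᶜ.Finite

/-- `A` is quasi-maximal: it is the intersection of finitely many (at least one) maximal sets. -/
def IsQuasiMaximal (A : Set ℕ) : Prop :=
  ∃ F : Set (Set ℕ), F.Finite ∧ F.Nonempty ∧ (∀ M ∈ F, IsMaximal M) ∧ A = ⋂₀ F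

/-- There is a parameter-free first-order formula in the language of inclusion which holds of an
r.e. set in the lattice of r.e. sets exactly when the set is quasi-maximal. The second conjunct is
the same for the convention that also counts the empty intersection `ω` as quasi-maximal. -/
theorem result :
    (∃ φ : Language.order.Formula (Fin 1), ∀ A : E,
      φ.Realize (fun _ => A) ↔ IsQuasiMaximal A.1) ∧
    (∃ ψ : Language.order.Formula (Fin 1), ∀ A : E,
      ψ.Realize (fun _ => A) ↔ (A.1 = Set.univ ∨ IsQuasiMaximal A.1)) := by
  constructor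
  · obtain ⟨φ, hφ⟩ := Pool.Agent.Helper446.EL.defQM (Γ := Fin 1) 0
    exact ⟨φ, fun A => hφ fun _ => A⟩
  · obtain ⟨ψ, hψ⟩ := ((Pool.Agent.Helper446.EL.defUniv (Γ := Fin 1) 0).or
      (Pool.Agent.Helper446.EL.defQM (Γ := Fin 1) 0))
    exact ⟨ψ, fun A => hψ fun _ => A⟩

end Pool.Agent.Results.MP_2ea200_lc.QuasiMaximalDefinable
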